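import Pool.Graph.R_pool_sql_team_39128cda.H.MP_a58584.E

set_option autoImplicit false

namespace Pool.Agent.Results.MP_d6b4bb_gt.AllCompacta

open Set Function Topology Filter TopologicalSpace unitInterval
open Pool.Agent.H.MP_a58584 (IsR exR delta network dep)

/-- `C_p(X)`: the continuous real functions with the topology of pointwise convergence. -/
abbrev Cp (X : Type) [TopologicalSpace X] : Type := {f : X → ℝ // Continuous f}

/-! ### The condition on `X` -/

theorem emb_component {X : Type} [TopologicalSpace X] [T2Space X] {A : Type}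
    (hA : Cardinal.mk A ≤ Cardinal.aleph 1) {B : Type} (H : ¬ Pool.Agent.H.MP_a58584.Neg B X) :
    ∃ h : (A → Bool) → X, IsEmbedding h ∧ ∃ x, range h ⊆ connectedComponent x := by
  simp only [Pool.Agent.H.MP_a58584.Neg, not_forall] at H
  obtain ⟨m, hm, H⟩ := H
  push Not at H
  obtain ⟨p, k, q, hq, h⟩ := delta (C := Unit)
    (P := {U : Set X × Set X // IsOpen U.1 ∧ IsOpen U.2 ∧ Disjoint U.1 U.2})
    (fun p => m ⁻¹' p.1.1) (fun p => m ⁻¹' p.1.2) (fun _ => ()) (fun p => p.2.1.preimage hm)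
    (fun p => p.2.2.1.preimage hm) (fun p => p.2.2.2.preimage m) (fun S hS => by
      obtain ⟨r, h1, h2⟩ := exR hS 0
      obtain ⟨t, ht⟩ := H r h1 (m (r 0))
      obtain ⟨U, V, h3, h4, h5, h6, h7⟩ := t2_separation ht
      exact ⟨⟨(U, V), h3, h4, h7⟩, r t, r 0, h5, h6, fun β hβ => by rw [h2 _ β hβ, h2 _ β hβ]⟩) A hA
  refine ⟨fun z => m (q fun α => cond (z α) 1 0), (Continuous.isClosedEmbedding
    (hm.comp (hq.comp (continuous_pi fun α => (continuous_of_discreteTopology
      (f := fun b : Bool => cond b (1 : I) 0)).comp (continuous_apply α)))) fun z z' e => ?_).1,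
      m 0, ?_⟩
  · funext α
    have k : ∀ z z' : A → Bool, z α = false → z' α = true →
        m (q fun α => cond (z α) 1 0) ≠ m (q fun α => cond (z' α) 1 0) := fun z z' a b e => by
      have h1 := ((h α).2 (fun α => cond (z α) 1 0)).1 (by simp [a])
      have h2 := ((h α).2 (fun α => cond (z' α) 1 0)).2 (by simp [b])
      rw [mem_preimage] at h1 h2
      exact Set.disjoint_left.1 (p α).2.2.2 h1 (e ▸ h2)
    cases a : z α <;> cases b : z' α
    · rfl
    · exact (k z z' a b e).elim
    · exact (k z' z b a e.symm).elim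
    · rfl
  · have h1 := (isPreconnected_range hm).subset_connectedComponent (mem_range_self (0 : B → I))
    rintro _ ⟨z, rfl⟩
    exact h1 (mem_range_self _)

/-! ### Consequences of a countable network -/

theorem metrizable_of_network {X : Type} [TopologicalSpace X] [CompactSpace X] [T2Space X]
    {Y : Type} [TopologicalSpace Y] (φ : Cp X → Y) (hφ : IsEmbedding φ) (𝒩 : Set (Set Y))
    (h1 : 𝒩.Countable)
    (h2 : ∀ x ∈ range φ, ∀ U : Set Y, IsOpen U → x ∈ U → ∃ N ∈ 𝒩, x ∈ N ∧ N ⊆ U ∩ range φ) :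
    MetrizableSpace X := by
  classical
  have := h1.to_subtype
  let z : Cp X := ⟨fun _ => 0, continuous_const⟩
  let g : 𝒩 → Cp X := fun N => if h : (φ ⁻¹' N.1).Nonempty then h.some else z
  have hg : ∀ (N : 𝒩) (f : Cp X), φ f ∈ N.1 → φ (g N) ∈ N.1 := fun N f hf => by
    have h : (φ ⁻¹' N.1).Nonempty := ⟨f, hf⟩
    simp only [g, dif_pos h]
    exact h.some_mem
  have key : IsEmbedding fun (x : X) (N : 𝒩) => (g N).1 x := by
    refine (Continuous.isClosedEmbedding (continuous_pi fun N => (g N).2) fun x y hxy => ?_).1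
    by_contra hne
    obtain ⟨f, f0, f1, -⟩ := exists_continuous_zero_one_of_isClosed isClosed_singleton
      isClosed_singleton (Set.disjoint_singleton.2 hne)
    obtain ⟨U, hU, e⟩ := hφ.isInducing.isOpen_iff.1
      ((isOpen_lt ((continuous_apply x).comp continuous_subtype_val)
        (continuous_const (y := (1 / 2 : ℝ)))).inter
      (isOpen_lt (continuous_const (y := (1 / 2 : ℝ)))
        ((continuous_apply y).comp (continuous_subtype_val (p := Continuous (X := X) (Y := ℝ))))))
    let F : Cp X := ⟨f, f.continuous⟩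
    have hF : φ F ∈ U := by
      have : F ∈ φ ⁻¹' U := by
        rw [e]
        refine ⟨?_, ?_⟩
        · show f x < 1 / 2
          rw [f0 (mem_singleton x)]; norm_num
        · show 1 / 2 < f y
          rw [f1 (mem_singleton y)]; norm_num
      exact this
    obtain ⟨N, h3, h4, h5⟩ := h2 (φ F) ⟨_, rfl⟩ U hU hF
    have h6 : g ⟨N, h3⟩ ∈ φ ⁻¹' U := (h5 (hg ⟨N, h3⟩ F h4)).1
    rw [e] at h6
    have h7 : (g ⟨N, h3⟩).1 x < 1 / 2 := h6.1
    have h8 : 1 / 2 < (g ⟨N, h3⟩).1 y := h6.2
    have h9 : (g ⟨N, h3⟩).1 x = (g ⟨N, h3⟩).1 y := congrFun hxy ⟨N, h3⟩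
    linarith
  exact key.metrizableSpace

theorem separable_of_network {X : Type} [TopologicalSpace X] [CompactSpace X] [T2Space X]
    {Y : Type} [TopologicalSpace Y] [T2Space Y] (φ : Cp X → Y) (hφ : Continuous φ)
    (hi : Injective φ) (𝒩 : Set (Set Y)) (h1 : 𝒩.Countable)
    (h2 : ∀ x ∈ range φ, ∀ U : Set Y, IsOpen U → x ∈ U → ∃ N ∈ 𝒩, x ∈ N ∧ N ⊆ U ∩ range φ) :
    SeparableSpace X := by
  classical
  let z : Cp X := ⟨fun _ => 0, continuous_const⟩
  have key : ∀ N : Set Y, ∃ F : Set X, F.Finite ∧ (φ z ∉ closure N →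
      ∀ g : Cp X, (∀ x ∈ F, g.1 x = 0) → φ g ∉ closure N) := by
    intro N
    by_cases hN : φ z ∈ closure N
    · exact ⟨∅, finite_empty, fun h => (h hN).elim⟩
    · have h3 : φ ⁻¹' (closure N)ᶜ ∈ 𝓝 z :=
        hφ.continuousAt (isClosed_closure.isOpen_compl.mem_nhds hN)
      obtain ⟨s, hs, hs'⟩ := (mem_nhds_subtype _ _ _).1 h3
      rw [nhds_pi, Filter.mem_pi] at hs
      obtain ⟨F, f1, t, f2, f3⟩ := hs
      refine ⟨F, f1, fun _ g hg => hs' (f3 fun x hx => ?_)⟩
      rw [hg x hx]
      exact mem_of_mem_nhds (f2 x)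
  choose F hF1 hF2 using key
  refine ⟨⋃ N ∈ 𝒩, F N, h1.biUnion fun N _ => (hF1 N).countable, ?_⟩
  rw [dense_iff_closure_eq]
  by_contra hne
  obtain ⟨x, hx⟩ := (ne_univ_iff_exists_notMem _).1 hne
  obtain ⟨f, f0, f1, -⟩ := exists_continuous_zero_one_of_isClosed
    (isClosed_closure (s := ⋃ N ∈ 𝒩, F N)) (isClosed_singleton (x := x))
    (Set.disjoint_singleton_right.2 hx)
  let G : Cp X := ⟨f, f.continuous⟩
  have hG : φ G ≠ φ z := fun e => by
    have e1 := congrFun (congrArg Subtype.val (hi e)) x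
    have e2 : f x = 1 := f1 (mem_singleton x)
    have e3 : f x = 0 := e1
    rw [e2] at e3
    exact one_ne_zero e3
  obtain ⟨U, W, hU, hW, h3, h4, h5⟩ := t2_separation hG
  obtain ⟨N, n1, n2, n3⟩ := h2 (φ G) ⟨_, rfl⟩ U hU h3
  have n4 : φ z ∉ closure N := fun h => by
    have h6 : closure N ⊆ Wᶜ := closure_minimal (fun y hy =>
      Set.disjoint_left.1 h5 (n3 hy).1) hW.isClosed_compl
    exact h6 h h4
  refine hF2 N n4 G (fun y hy => ?_) (subset_closure n2)
  exact f0 (subset_closure (mem_biUnion n1 hy))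

/-! ### Positive constructions -/

theorem precomp_emb {X Y : Type} [TopologicalSpace X] [TopologicalSpace Y] (q : Y → X)
    (hq : Continuous q) (hs : Surjective q) :
    IsEmbedding fun f : Cp X => (⟨f.1 ∘ q, f.2.comp hq⟩ : Cp Y) := by
  obtain ⟨s, hs⟩ := hs.hasRightInverse
  refine IsEmbedding.of_comp (g := fun (g : Cp Y) (x : X) => g.1 (s x)) ?_ ?_ ?_
  · refine Continuous.subtype_mk (continuous_pi fun y => ?_) _
    exact (continuous_apply (q y)).comp (continuous_subtype_val (p := Continuous (X := X) (Y := ℝ)))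
  · exact continuous_pi fun x => (continuous_apply (s x)).comp continuous_subtype_val
  · have : ((fun (g : Cp Y) (x : X) => g.1 (s x)) ∘
        fun f : Cp X => (⟨f.1 ∘ q, f.2.comp hq⟩ : Cp Y)) = Subtype.val := by
      funext f x
      show f.1 (q (s x)) = f.1 x
      rw [hs x]
    rw [this]
    exact IsEmbedding.subtypeVal

/-- nearest point of `C` below `t` -/
noncomputable def lo (C : Set ℝ) (t : ℝ) : ℝ := sSup (C ∩ Iic t)

/-- nearest point of `C` above `t` -/
noncomputable def up (C : Set ℝ) (t : ℝ) : ℝ := sInf (C ∩ Ici t)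

theorem lo_spec {C : Set ℝ} (hC : IsClosed C) (h0 : (0 : ℝ) ∈ C) {t : ℝ} (ht : 0 ≤ t) :
    lo C t ∈ C ∧ lo C t ≤ t ∧ ∀ c ∈ C, c ≤ t → c ≤ lo C t := by
  have h1 : BddAbove (C ∩ Iic t) := ⟨t, fun x hx => hx.2⟩
  have h2 : lo C t ∈ C ∩ Iic t := (hC.inter isClosed_Iic).csSup_mem ⟨0, h0, ht⟩ h1
  exact ⟨h2.1, h2.2, fun c hc hct => le_csSup h1 ⟨hc, hct⟩⟩

theorem up_spec {C : Set ℝ} (hC : IsClosed C) (h0 : (1 : ℝ) ∈ C) {t : ℝ} (ht : t ≤ 1) :
    up C t ∈ C ∧ t ≤ up C t ∧ ∀ c ∈ C, t ≤ c → up C t ≤ c := by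
  have h1 : BddBelow (C ∩ Ici t) := ⟨t, fun x hx => hx.2⟩
  have h2 : up C t ∈ C ∩ Ici t := (hC.inter isClosed_Ici).csInf_mem ⟨1, h0, ht⟩ h1
  exact ⟨h2.1, h2.2, fun c hc hct => csInf_le h1 ⟨hc, hct⟩⟩

/-- linear interpolation on the gaps of `C` -/
noncomputable def itp (C : Set ℝ) (f : ℝ → ℝ) (t : ℝ) : ℝ :=
  f (lo C t) + (f (up C t) - f (lo C t)) * ((t - lo C t) / (up C t - lo C t))

theorem itp_mem {C : Set ℝ} (hC : IsClosed C) (h0 : (0 : ℝ) ∈ C) (h1 : (1 : ℝ) ∈ C)
    (hI : C ⊆ Icc 0 1) {t : ℝ} (ht : t ∈ C) : lo C t = t ∧ up C t = t := by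
  obtain ⟨a1, a2, a3⟩ := lo_spec hC h0 (hI ht).1
  obtain ⟨b1, b2, b3⟩ := up_spec hC h1 (hI ht).2
  exact ⟨le_antisymm a2 (a3 t ht le_rfl), le_antisymm (b3 t ht le_rfl) b2⟩

theorem itp_cont {C : Set ℝ} (hC : IsClosed C) (h0 : (0 : ℝ) ∈ C) (h1 : (1 : ℝ) ∈ C)
    (hI : C ⊆ Icc 0 1) (f : ℝ → ℝ) (hf : Continuous f) : ContinuousOn (itp C f) (Icc 0 1) := by
  intro t₀ ht₀
  by_cases hc : t₀ ∈ C
  · rw [Metric.continuousWithinAt_iff]
    intro ε hε
    obtain ⟨e1, e2⟩ := itp_mem hC h0 h1 hI hc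
    have hF : itp C f t₀ = f t₀ := by simp [itp, e1, e2]
    rw [hF]
    have huc := isCompact_Icc.uniformContinuousOn_of_continuous (hf.continuousOn (s := Icc (0 : ℝ) 1))
    rw [Metric.uniformContinuousOn_iff] at huc
    obtain ⟨δ, hδ, hu⟩ := huc (ε / 2) (half_pos hε)
    obtain ⟨M, hM⟩ := (isCompact_Icc (a := (0 : ℝ)) (b := 1)).exists_bound_of_continuousOn
      hf.continuousOn
    have hM0 : 0 ≤ M := (norm_nonneg _).trans (hM t₀ ht₀)
    refine ⟨min δ (δ * ε / (4 * M + 1)), by positivity, fun t ht hd => ?_⟩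
    obtain ⟨a1, a2, a3⟩ := lo_spec hC h0 ht.1
    obtain ⟨b1, b2, b3⟩ := up_spec hC h1 ht.2
    set l := lo C t with hl
    set r := up C t with hr
    rw [Real.dist_eq] at hd
    have hd1 := hd.trans_le (min_le_left _ _)
    have hd2 := hd.trans_le (min_le_right _ _)
    have key : ∀ x : ℝ, 0 ≤ x → x ≤ |t - t₀| → x ≤ r - l → |f r - f l| * (x / (r - l)) ≤ ε / 2 := by
      intro x hx1 hx2 hx3
      rcases eq_or_lt_of_le (sub_nonneg.2 (a2.trans b2)) with h | h
      · rw [← h, div_zero, mul_zero]; positivity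
      · have hq : x / (r - l) ≤ 1 := (div_le_one h).2 hx3
        have hq0 : 0 ≤ x / (r - l) := by positivity
        by_cases hrl : r - l < δ
        · have h2 := hu r (hI b1) l (hI a1) (by rw [Real.dist_eq, abs_of_pos h]; exact hrl)
          rw [Real.dist_eq] at h2
          nlinarith [abs_nonneg (f r - f l)]
        · rw [not_lt] at hrl
          have h2 : |f r - f l| ≤ 2 * M := by
            have h3 := hM r (hI b1)
            have h4 := hM l (hI a1)
            rw [Real.norm_eq_abs] at h3 h4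
            exact (abs_sub _ _).trans (by linarith)
          have h3 : x / (r - l) ≤ ε / (4 * M + 1) := by
            rw [div_le_div_iff₀ h (by positivity)]
            rw [lt_div_iff₀ (by positivity)] at hd2
            have h5 : x * (4 * M + 1) ≤ |t - t₀| * (4 * M + 1) :=
              mul_le_mul_of_nonneg_right hx2 (by positivity)
            nlinarith
          calc |f r - f l| * (x / (r - l)) ≤ 2 * M * (ε / (4 * M + 1)) :=
                mul_le_mul h2 h3 hq0 (by positivity)
            _ ≤ ε / 2 := by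
                rw [mul_div_assoc', div_le_div_iff₀ (by positivity) two_pos]
                nlinarith
    rw [Real.dist_eq]
    rcases le_total t₀ t with h | h
    · have h2 := a3 t₀ hc h
      have h3 := hu l (hI a1) t₀ ht₀ (by
        rw [Real.dist_eq, abs_of_nonneg (sub_nonneg.2 h2)]
        rw [abs_of_nonneg (sub_nonneg.2 h)] at hd1
        linarith)
      rw [Real.dist_eq] at h3
      have h4 := key (t - l) (sub_nonneg.2 a2) (by
        rw [abs_of_nonneg (sub_nonneg.2 h)]; linarith) (by linarith)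
      have h5 : itp C f t - f t₀ = (f l - f t₀) + (f r - f l) * ((t - l) / (r - l)) := by
        simp only [itp, ← hl, ← hr]; ring
      rw [h5]
      refine (abs_add_le _ _).trans_lt ?_
      rw [abs_mul, abs_of_nonneg (div_nonneg (sub_nonneg.2 a2) (sub_nonneg.2 (a2.trans b2)))]
      linarith
    · have h2 := b3 t₀ hc h
      have h3 := hu r (hI b1) t₀ ht₀ (by
        rw [Real.dist_eq, abs_of_nonpos (sub_nonpos.2 h2)]
        rw [abs_of_nonpos (sub_nonpos.2 h)] at hd1
        linarith)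
      rw [Real.dist_eq] at h3
      have h4 := key (r - t) (sub_nonneg.2 b2) (by
        rw [abs_of_nonpos (sub_nonpos.2 h)]; linarith) (by linarith)
      have h5 : itp C f t - f t₀ = (f r - f t₀) - (f r - f l) * ((r - t) / (r - l)) := by
        simp only [itp, ← hl, ← hr]
        rcases eq_or_lt_of_le (a2.trans b2) with e | e
        · have e' : t = l := le_antisymm (b2.trans e.ge) a2
          rw [← e, e']; simp
        · have : r - l ≠ 0 := (sub_pos.2 e).ne'
          field_simp
          ring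
      rw [h5]
      refine (abs_sub _ _).trans_lt ?_
      rw [abs_mul, abs_of_nonneg (div_nonneg (sub_nonneg.2 b2) (sub_nonneg.2 (a2.trans b2)))]
      linarith
  · obtain ⟨a1, a2, a3⟩ := lo_spec hC h0 ht₀.1
    obtain ⟨b1, b2, b3⟩ := up_spec hC h1 ht₀.2
    have a2' : lo C t₀ < t₀ := lt_of_le_of_ne a2 fun h => hc (h ▸ a1)
    have b2' : t₀ < up C t₀ := lt_of_le_of_ne b2 fun h => hc (h ▸ b1)
    have hloc : ∀ t ∈ Ioo (lo C t₀) (up C t₀), lo C t = lo C t₀ ∧ up C t = up C t₀ := by
      intro t ht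
      have e1 : C ∩ Iic t = C ∩ Iic t₀ := by
        ext c
        constructor
        · rintro ⟨h2, h3⟩
          refine ⟨h2, ?_⟩
          by_contra h4
          exact absurd ((b3 c h2 (not_le.1 h4).le).trans h3) (not_le.2 ht.2)
        · rintro ⟨h2, h3⟩
          exact ⟨h2, (a3 c h2 h3).trans ht.1.le⟩
      have e2 : C ∩ Ici t = C ∩ Ici t₀ := by
        ext c
        constructor
        · rintro ⟨h2, h3⟩
          refine ⟨h2, ?_⟩
          by_contra h4
          exact absurd (le_trans (show t ≤ c from h3) (a3 c h2 (not_le.1 h4).le)) (not_le.2 ht.1)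
        · rintro ⟨h2, h3⟩
          exact ⟨h2, ht.2.le.trans (b3 c h2 h3)⟩
      unfold lo up
      rw [e1, e2]
      exact ⟨rfl, rfl⟩
    have hev : itp C f =ᶠ[𝓝 t₀] fun t => f (lo C t₀) +
        (f (up C t₀) - f (lo C t₀)) * ((t - lo C t₀) / (up C t₀ - lo C t₀)) := by
      filter_upwards [Ioo_mem_nhds a2' b2'] with t ht
      obtain ⟨e1, e2⟩ := hloc t ht
      simp only [itp, e1, e2]
    refine ContinuousAt.continuousWithinAt (ContinuousAt.congr ?_ hev.symm)
    exact Continuous.continuousAt (by fun_prop)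

theorem extend_emb {C : Set ℝ} (hC : IsClosed C) (h0 : (0 : ℝ) ∈ C) (h1 : (1 : ℝ) ∈ C)
    (hI : C ⊆ Icc 0 1) : ∃ E : Cp C → Cp unitInterval, IsEmbedding E := by
  have hlo : ∀ t : unitInterval, lo C t ∈ C := fun t => (lo_spec hC h0 t.2.1).1
  have hup : ∀ t : unitInterval, up C t ∈ C := fun t => (up_spec hC h1 t.2.2).1
  let E0 : Cp C → unitInterval → ℝ := fun f t => f.1 ⟨lo C t, hlo t⟩ +
    (f.1 ⟨up C t, hup t⟩ - f.1 ⟨lo C t, hlo t⟩) * ((t - lo C t) / (up C t - lo C t))
  have hE0 : ∀ f, Continuous (E0 f) := by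
    intro f
    obtain ⟨g, hg⟩ := ContinuousMap.exists_restrict_eq (Y := ℝ) hC ⟨f.1, f.2⟩
    have hg' : ∀ c : C, g c = f.1 c := fun c => DFunLike.congr_fun hg c
    have e : E0 f = fun t : unitInterval => itp C g t := by
      funext t
      simp only [E0, itp, ← hg']
    rw [e]
    exact (itp_cont hC h0 h1 hI g g.continuous).comp_continuous continuous_subtype_val
      fun t => t.2
  let E : Cp C → Cp unitInterval := fun f => ⟨E0 f, hE0 f⟩
  refine ⟨E, IsEmbedding.of_comp (g := fun (g : Cp unitInterval) (c : C) => g.1 ⟨c, hI c.2⟩)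
    ?_ ?_ ?_⟩
  · refine Continuous.subtype_mk (continuous_pi fun t => ?_) _
    have h3 : ∀ c : C, Continuous fun f : Cp C => f.1 c := fun c =>
      (continuous_apply c).comp (continuous_subtype_val (p := Continuous (X := C) (Y := ℝ)))
    exact (h3 _).add (((h3 _).sub (h3 _)).mul continuous_const)
  · exact continuous_pi fun c => (continuous_apply _).comp
      (continuous_subtype_val (p := Continuous (X := unitInterval) (Y := ℝ)))
  · have : ((fun (g : Cp unitInterval) (c : C) => g.1 ⟨c, hI c.2⟩) ∘ E) = Subtype.val := by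
      funext f c
      obtain ⟨e1, e2⟩ := itp_mem hC h0 h1 hI c.2
      show E0 f ⟨c, hI c.2⟩ = f.1 c
      simp only [E0, e1, e2, sub_self, zero_mul, add_zero]
    rw [this]
    exact IsEmbedding.subtypeVal

theorem one_mem_cantor : (1 : ℝ) ∈ cantorSet := by
  simp only [cantorSet, mem_iInter]
  intro n
  induction n with
  | zero => simp [preCantorSet]
  | succ n ih => exact Or.inr ⟨1, ih, by norm_num⟩

theorem metrizable_embeds (X : Type) [TopologicalSpace X] [CompactSpace X] [MetrizableSpace X] :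
    ∃ E : Cp X → Cp unitInterval, IsEmbedding E := by
  rcases isEmpty_or_nonempty X with hX | hX
  · have : Subsingleton (Cp X) := ⟨fun f g => Subtype.ext (funext fun x => (hX.false x).elim)⟩
    exact ⟨fun _ => ⟨fun _ => 0, continuous_const⟩, IsEmbedding.of_subsingleton _⟩
  · let := metrizableSpaceMetric X
    obtain ⟨p, hp, hs⟩ := exists_nat_bool_continuous_surjective_of_compact X
    obtain ⟨E, hE⟩ := extend_emb isClosed_cantorSet zero_mem_cantorSet one_mem_cantor
      cantorSet_subset_unitInterval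
    exact ⟨_, hE.comp (precomp_emb (p ∘ cantorSetHomeomorphNatToBool)
      (hp.comp cantorSetHomeomorphNatToBool.continuous)
      (hs.comp cantorSetHomeomorphNatToBool.surjective))⟩

/-- bumps -/
noncomputable def bump (n : ℕ) (t : ℝ) : ℝ := max 0 (1 - (n + 1) * (n + 2) * |t - 1 / (n + 1)|)

theorem bump_le (n : ℕ) (t : ℝ) : |bump n t| ≤ 1 := by
  unfold bump
  rw [abs_of_nonneg (le_max_left _ _)]
  refine max_le zero_le_one ?_
  have : 0 ≤ ((n : ℝ) + 1) * (n + 2) * |t - 1 / (n + 1)| := by positivity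
  linarith

theorem bump_self (n : ℕ) : bump n (1 / ((n : ℝ) + 1)) = 1 := by
  simp [bump]

theorem bump_ne {n m : ℕ} (h : n ≠ m) : bump n (1 / ((m : ℝ) + 1)) = 0 := by
  unfold bump
  refine max_eq_left ?_
  rw [sub_nonpos]
  have hn : (0 : ℝ) < (n : ℝ) + 1 := by positivity
  have hm : (0 : ℝ) < (m : ℝ) + 1 := by positivity
  have e : 1 / ((m : ℝ) + 1) - 1 / (n + 1) = ((n : ℝ) - m) / ((m + 1) * (n + 1)) := by
    field_simp
    ring
  rw [e, abs_div, abs_of_pos (mul_pos hm hn), mul_div_assoc', le_div_iff₀ (by positivity), one_mul]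
  rcases lt_or_gt_of_ne h with h | h
  · have h1 : (n : ℝ) + 1 ≤ m := by exact_mod_cast h
    rw [abs_of_nonpos (by linarith)]
    have h2 : 0 ≤ ((n : ℝ) + 1) * ((n + 1) * (m - (n + 1))) :=
      mul_nonneg hn.le (mul_nonneg hn.le (sub_nonneg.2 h1))
    linarith [h2, (by ring : ((n : ℝ) + 1) * ((n + 1) * (m - (n + 1))) =
      (n + 1) * (n + 2) * -(n - m) - (m + 1) * (n + 1))]
  · have h1 : (m : ℝ) + 1 ≤ n := by exact_mod_cast h
    rw [abs_of_nonneg (by linarith)]
    have h2 : 0 ≤ ((n : ℝ) + 1) * ((n + 2) * (n - (m + 1))) :=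
      mul_nonneg hn.le (mul_nonneg (by linarith) (sub_nonneg.2 h1))
    have h3 : 0 ≤ ((n : ℝ) + 1) * (n + 2 - (m + 1)) := mul_nonneg hn.le (by linarith)
    linarith [h2, h3, (by ring : ((n : ℝ) + 1) * ((n + 2) * (n - (m + 1))) +
      (n + 1) * (n + 2 - (m + 1)) = (n + 1) * (n + 2) * (n - m) - (m + 1) * (n + 1))]

theorem separable_injects (X : Type) [TopologicalSpace X] [SeparableSpace X] :
    ∃ E : Cp X → Cp unitInterval, Continuous E ∧ Injective E := by
  rcases isEmpty_or_nonempty X with hX | hX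
  · have : Subsingleton (Cp X) := ⟨fun f g => Subtype.ext (funext fun x => (hX.false x).elim)⟩
    exact ⟨fun _ => ⟨fun _ => 0, continuous_const⟩, continuous_const, injective_of_subsingleton _⟩
  · let T : Cp X → ℝ → ℕ → ℝ := fun f t n => (1 / 2) ^ n *
      (Real.arctan (f.1 (denseSeq X n)) * bump n t)
    have hb : ∀ f t n, ‖T f t n‖ ≤ 2 * (1 / 2) ^ n := by
      intro f t n
      simp only [T]
      rw [norm_mul, norm_mul, Real.norm_eq_abs, Real.norm_eq_abs, Real.norm_eq_abs,
        abs_of_pos (by positivity : (0 : ℝ) < (1 / 2) ^ n), mul_comm]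
      refine mul_le_mul_of_nonneg_right ?_ (by positivity)
      have h1 : |Real.arctan (f.1 (denseSeq X n))| ≤ 2 := by
        rw [abs_le]
        have h2 := Real.arctan_lt_pi_div_two (f.1 (denseSeq X n))
        have h3 := Real.neg_pi_div_two_lt_arctan (f.1 (denseSeq X n))
        have h4 := Real.pi_le_four
        constructor <;> linarith
      calc |Real.arctan (f.1 (denseSeq X n))| * |bump n t| ≤ 2 * 1 :=
            mul_le_mul h1 (bump_le n t) (abs_nonneg _) zero_le_two
        _ = 2 := by norm_num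
    have hs : Summable fun n : ℕ => 2 * (1 / 2 : ℝ) ^ n :=
      (summable_geometric_of_lt_one (by norm_num) (by norm_num)).mul_left 2
    have hc1 : ∀ f, Continuous fun t : unitInterval => ∑' n, T f t n := fun f =>
      continuous_tsum (fun n => by
        simp only [T, bump]
        fun_prop) hs fun n t => hb f t n
    have hc2 : ∀ t : ℝ, Continuous fun f : Cp X => ∑' n, T f t n := fun t =>
      continuous_tsum (fun n => by
        have h3 : Continuous fun f : Cp X => f.1 (denseSeq X n) :=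
          (continuous_apply _).comp (continuous_subtype_val (p := Continuous (X := X) (Y := ℝ)))
        simp only [T]
        exact continuous_const.mul ((Real.continuous_arctan.comp h3).mul continuous_const)) hs
        fun n f => hb f t n
    refine ⟨fun f => ⟨fun t => ∑' n, T f t n, hc1 f⟩,
      Continuous.subtype_mk (continuous_pi fun t : unitInterval => hc2 t.1) _, fun f g h => ?_⟩
    have hm : ∀ m : ℕ, f.1 (denseSeq X m) = g.1 (denseSeq X m) := by
      intro m
      have ht : (1 / ((m : ℝ) + 1)) ∈ unitInterval := by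
        refine ⟨by positivity, ?_⟩
        rw [div_le_one (by positivity)]
        have : (0 : ℝ) ≤ m := Nat.cast_nonneg m
        linarith
      have h1 : ∀ f : Cp X, ∑' n, T f (1 / ((m : ℝ) + 1)) n =
          (1 / 2) ^ m * Real.arctan (f.1 (denseSeq X m)) := by
        intro f
        rw [tsum_eq_single m fun n hn => by simp only [T, bump_ne hn, mul_zero]]
        simp only [T, bump_self, mul_one]
      have h2 := congrFun (congrArg Subtype.val h) ⟨_, ht⟩
      simp only at h2
      rw [h1, h1] at h2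
      exact Real.arctan_injective (mul_left_cancel₀ (by positivity) h2)
    exact Subtype.ext (Continuous.ext_on (denseRange_denseSeq X) f.2 g.2 (by
      rintro _ ⟨m, rfl⟩; exact hm m))

/-- **All compacta and all cubes.** -/
theorem result (X : Type) [TopologicalSpace X] [CompactSpace X] [T2Space X]
    (hX : ∀ A : Type, Cardinal.mk A = Cardinal.aleph 1 → ∀ e : (A → Bool) → X, IsEmbedding e →
      ∀ x, ¬ range e ⊆ connectedComponent x) :
    (∀ (B : Type) (φ : Cp X → Cp (B → unitInterval)), Continuous φ →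
      (∃ S : Set B, S.Countable ∧
        ∀ f y y', (∀ β ∈ S, y β = y' β) → (φ f).1 y = (φ f).1 y') ∧
      ∃ 𝒩 : Set (Set (Cp (B → unitInterval))), 𝒩.Countable ∧
        ∀ g ∈ range φ, ∀ U : Set (Cp (B → unitInterval)), IsOpen U → g ∈ U →
          ∃ N ∈ 𝒩, g ∈ N ∧ N ⊆ U ∩ range φ) ∧
    (∀ B : Type, Nonempty B →
      ((∃ φ : Cp X → Cp (B → unitInterval), IsEmbedding φ) ↔ MetrizableSpace X)) ∧
    ∀ B : Type, Nonempty B →
      ((∃ φ : Cp X → Cp (B → unitInterval), Continuous φ ∧ Injective φ) ↔ SeparableSpace X) := by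
  obtain ⟨A, hA⟩ : ∃ J : Type, Cardinal.mk J = Cardinal.aleph 1 := ⟨_, Cardinal.mk_out _⟩
  have hN : Pool.Agent.H.MP_a58584.Neg A X := by
    by_contra H
    obtain ⟨h, h1, x, h2⟩ := emb_component hA.le H
    exact hX A hA h h1 x h2
  have hemb : ∀ (B : Type) (hB : Nonempty B), IsEmbedding fun f : Cp unitInterval =>
      (⟨f.1 ∘ fun y : B → unitInterval => y (@Classical.arbitrary B hB),
        f.2.comp (continuous_apply _)⟩ : Cp (B → unitInterval)) := fun B hB =>
    precomp_emb (fun y : B → unitInterval => y (@Classical.arbitrary B hB)) (continuous_apply _)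
      fun t => ⟨fun _ => t, rfl⟩
  refine ⟨fun B φ hφ => ⟨dep hA hN φ hφ, network hA hN φ hφ⟩, fun B hB => ⟨?_, fun h => ?_⟩,
    fun B hB => ⟨?_, fun h => ?_⟩⟩
  · rintro ⟨φ, hφ⟩
    obtain ⟨𝒩, h1, h2⟩ := network hA hN φ hφ.continuous
    exact metrizable_of_network φ hφ 𝒩 h1 h2
  · obtain ⟨E, hE⟩ := metrizable_embeds X
    exact ⟨_, (hemb B hB).comp hE⟩
  · rintro ⟨φ, h1, h2⟩
    obtain ⟨𝒩, h3, h4⟩ := network hA hN φ h1
    exact separable_of_network φ h1 h2 𝒩 h3 h4
  · obtain ⟨E, h1, h2⟩ := separable_injects X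
    exact ⟨_, (hemb B hB).continuous.comp h1, (hemb B hB).injective.comp h2⟩

end Pool.Agent.Results.MP_d6b4bb_gt.AllCompacta
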